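import Pool.Agent.H70.PW.Targets

/-!
# Module BKS: the classes of rows
-/

set_option autoImplicit false

namespace Pool.Agent.H69.PW.BKS

open Finset Pool.Agent.H6.NB Pool.Agent.H70.OQ Pool.Agent.H70.PW

theorem exists_prefix (h : T_LTR) (p : ℕ) : ∃ a : ℕ → List Bool, (∀ j < 2 ^ p, (a j).length = p) ∧
    ∀ j' < 2 ^ p, ∀ j < j', Later (a j) (a j') := by
  obtain ⟨-, -, -, -, h5⟩ := h
  induction p with
  | zero =>
    refine ⟨fun _ => [], fun _ _ => rfl, ?_⟩
    intro j' hj' j hj
    rw [pow_zero] at hj'
    omega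
  | succ p ih =>
    obtain ⟨a, ha, hb⟩ := ih
    refine ⟨fun j => if j < 2 ^ p then false :: a j else true :: a (j - 2 ^ p), ?_, ?_⟩
    · intro j hj
      rw [pow_succ] at hj
      by_cases hjp : j < 2 ^ p
      · simp [hjp, ha j hjp]
      · simp only [hjp, if_false, List.length_cons]
        rw [ha (j - 2 ^ p) (by omega)]
    · intro j' hj' j hj
      rw [pow_succ] at hj'
      by_cases hjp' : j' < 2 ^ p
      · have hjp : j < 2 ^ p := by omega
        simp only [hjp, hjp', if_true]
        exact (h5 (a j) (a j') [false]).1 (hb j' hjp' j hj)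
      · by_cases hjp : j < 2 ^ p
        · simp only [hjp, hjp', if_true, if_false]
          exact ⟨[], a j, a (j' - 2 ^ p), rfl, rfl⟩
        · simp only [hjp, hjp', if_false]
          exact (h5 _ _ [true]).1 (hb (j' - 2 ^ p) (by omega) (j - 2 ^ p) (by omega))

theorem ofFn_getD {n : ℕ} (L : List Bool) (hL : L.length = n) :
    List.ofFn (fun i : Fin n => L.getD i false) = L := by
  subst hL
  apply List.ext_getElem
  · simp
  · intro i h1 h2
    simp [List.getD_eq_getElem?_getD]

theorem bks (h : T_LTR) : T_BKS := by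
  classical
  intro n p J hn hJ
  obtain ⟨a, ha, hb⟩ := exists_prefix h p
  obtain ⟨-, -, -, h4, -⟩ := h
  refine ⟨fun j c => univ.filter fun x : Fin n → Bool => ∃ z : Fin (n - p - 1) → Bool,
    List.ofFn x = a j ++ List.ofFn z ++ [c], ?_, ?_, ?_⟩
  · intro j hj c
    have hlen : ∀ z : Fin (n - p - 1) → Bool, (a j ++ List.ofFn z ++ [c]).length = n := by
      intro z
      simp only [List.length_append, List.length_ofFn, List.length_cons, List.length_nil,
        ha j (lt_of_lt_of_le hj hJ)]
      omega
    have hcard : (univ : Finset (Fin (n - p - 1) → Bool)).card = 2 ^ (n - p - 1) := by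
      simp
    rw [← hcard]
    refine Finset.card_le_card_of_injOn
      (fun z i => (a j ++ List.ofFn z ++ [c]).getD i false) ?_ ?_
    · intro z _
      simp only [coe_filter, mem_univ, true_and, Set.mem_ofPred_eq]
      exact ⟨z, ofFn_getD _ (hlen z)⟩
    · intro z _ z' _ hzz
      have h1 := ofFn_getD _ (hlen z)
      have h2 := ofFn_getD _ (hlen z')
      have h3 : a j ++ List.ofFn z ++ [c] = a j ++ List.ofFn z' ++ [c] := by
        rw [← h1, ← h2]
        exact congrArg List.ofFn hzz
      rw [List.append_left_inj, List.append_right_inj] at h3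
      exact List.ofFn_injective h3
  · intro j _ c x hx
    obtain ⟨z, hz⟩ := (mem_filter.1 hx).2
    rw [hz]
    simp
  · intro j' hj' j hj c c' x hx x' hx'
    obtain ⟨z, hz⟩ := (mem_filter.1 hx).2
    obtain ⟨z', hz'⟩ := (mem_filter.1 hx').2
    rw [hz, hz', List.append_assoc, List.append_assoc]
    exact h4 _ _ _ _ (hb j' (lt_of_lt_of_le hj' hJ) j hj)

end Pool.Agent.H69.PW.BKS
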