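import Pool.Agent.H70.PW.Targets

/-!
# Module GRW: a polynomial with one positive value and many nonpositive values has a large value
-/

set_option autoImplicit false

namespace Pool.Agent.H69.PW.GRW

open Finset Pool.Agent.H6.NB Pool.Agent.H70.OQ Pool.Agent.H70.PW

theorem grw (h : T_MKV) : T_GRW := by
  intro D l p v hD hl hv hv0 hneg
  by_contra hcon
  push Not at hcon
  have hl1 : 1 ≤ l := by omega
  have hlR : (100 : ℝ) * D ^ 2 + 1 ≤ l := by exact_mod_cast hl
  have hlpos : (0 : ℝ) < l := by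
    have : (0 : ℝ) ≤ 100 * (D : ℝ) ^ 2 := by positivity
    linarith
  set v0 : ℝ := p.eval 0 with hv0def
  have hv0pos : 0 < v0 := lt_of_lt_of_le hv hv0
  have hint : ∀ i : ℕ, i ≤ l → |p.eval (i : ℝ)| ≤ 2 * v0 := by
    intro i hi
    rcases Nat.eq_zero_or_pos i with h0 | h0
    · subst h0
      rw [Nat.cast_zero, ← hv0def, abs_of_pos hv0pos]
      linarith
    · have h1 := hcon i h0 hi
      have h2 := hneg i h0 hi
      rw [abs_le]
      constructor <;> linarith
  -- the maximum
  obtain ⟨z, hz, hmax⟩ := (isCompact_Icc (a := (0 : ℝ)) (b := l)).exists_isMaxOn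
    ⟨0, by constructor <;> linarith⟩ (f := fun x : ℝ => |p.eval x|)
    (p.continuous.abs.continuousOn)
  set M : ℝ := |p.eval z| with hM
  have hmax' : ∀ x : ℝ, 0 ≤ x → x ≤ l → |p.eval x| ≤ M := fun x h0 h1 => hmax ⟨h0, h1⟩
  have hMpos : 0 < M := by
    have := hmax' 0 le_rfl hlpos.le
    rw [← hv0def, abs_of_pos hv0pos] at this
    linarith
  -- Markov
  have hder : ∀ x : ℝ, 0 ≤ x → x ≤ l → |p.derivative.eval x| ≤ M / 25 := by
    intro x hx0 hxl
    set q : Polynomial ℝ := Polynomial.C (1 / M) * p.comp (Polynomial.C ((l : ℝ) / 2) * Polynomial.X +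
      Polynomial.C ((l : ℝ) / 2)) with hq
    have hqdeg : q.natDegree ≤ D := by
      refine le_trans (Polynomial.natDegree_C_mul_le _ _) ?_
      refine le_trans Polynomial.natDegree_comp_le ?_
      have h1 : (Polynomial.C ((l : ℝ) / 2) * Polynomial.X +
          Polynomial.C ((l : ℝ) / 2)).natDegree ≤ 1 := Polynomial.natDegree_linear_le
      calc p.natDegree * _ ≤ p.natDegree * 1 := Nat.mul_le_mul_left _ h1
        _ ≤ D := by omega
    have hqe : ∀ y, q.eval y = p.eval ((l : ℝ) / 2 * y + l / 2) / M := by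
      intro y
      simp [hq, Polynomial.eval_comp]
      ring
    have hqb : ∀ y : ℝ, |y| ≤ 1 → |q.eval y| ≤ 1 := by
      intro y hy
      rw [abs_le] at hy
      rw [hqe, abs_div, abs_of_pos hMpos, div_le_one hMpos]
      apply hmax'
      · nlinarith [hy.1, hy.2]
      · nlinarith [hy.1, hy.2]
    set y : ℝ := x / (l / 2) - 1 with hy
    have hy1 : |y| ≤ 1 := by
      rw [abs_le, hy]
      constructor
      · have : 0 ≤ x / ((l : ℝ) / 2) := by positivity
        linarith
      · have : x / ((l : ℝ) / 2) ≤ 2 := by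
          rw [div_le_iff₀ (by positivity)]
          linarith
        linarith
    have hmk := h D q hqdeg hqb y hy1
    have hxy : (l : ℝ) / 2 * y + l / 2 = x := by
      rw [hy]
      field_simp
      ring
    have hqd : q.derivative.eval y = (l : ℝ) / 2 * p.derivative.eval x / M := by
      rw [hq]
      simp only [Polynomial.derivative_mul, Polynomial.derivative_C, zero_mul, zero_add,
        Polynomial.derivative_comp, Polynomial.derivative_add, Polynomial.derivative_X, mul_one,
        add_zero, Polynomial.eval_mul, Polynomial.eval_C, Polynomial.eval_comp, Polynomial.eval_add,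
        Polynomial.eval_X, hxy]
      ring
    rw [hqd, abs_div, abs_mul, abs_of_pos hMpos, abs_of_pos (by positivity : (0 : ℝ) < l / 2),
      div_le_iff₀ hMpos] at hmk
    have hD2 : (0 : ℝ) ≤ (D : ℝ) ^ 2 := by positivity
    -- l/2 * |p'| ≤ 2 D^2 M ≤ (l/50) M
    have h3 : (l : ℝ) / 2 * |p.derivative.eval x| ≤ (l : ℝ) / 2 * (M / 25) := by
      have : 2 * (D : ℝ) ^ 2 * M ≤ (l : ℝ) / 2 * (M / 25) := by
        have h4 : 100 * (D : ℝ) ^ 2 ≤ l := by linarith
        nlinarith
      linarith
    exact le_of_mul_le_mul_left h3 (by positivity)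
  have hmv : ∀ x y : ℝ, 0 ≤ x → x ≤ l → 0 ≤ y → y ≤ l → |p.eval x - p.eval y| ≤ M / 25 * |x - y| := by
    intro x y hx0 hxl hy0 hyl
    have := (convex_Icc (0 : ℝ) l).norm_image_sub_le_of_norm_deriv_le (f := fun x => p.eval x)
      (C := M / 25) (fun u _ => p.differentiable.differentiableAt) (fun u hu => by
        rw [Polynomial.deriv]
        exact hder u hu.1 hu.2) (x := y) (y := x) ⟨hy0, hyl⟩ ⟨hx0, hxl⟩
    simpa [Real.norm_eq_abs] using this
  -- nearest integer
  obtain ⟨i, hi, hzi⟩ : ∃ i : ℕ, i ≤ l ∧ |z - i| ≤ 1 / 2 := by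
    have h0 := hz.1
    have h1 := hz.2
    refine ⟨⌊z + 1 / 2⌋₊, ?_, ?_⟩
    · have := Nat.floor_le (by linarith : (0 : ℝ) ≤ z + 1 / 2)
      have h2 : (⌊z + 1 / 2⌋₊ : ℝ) < l + 1 := by linarith
      have h3 : ⌊z + 1 / 2⌋₊ < l + 1 := by exact_mod_cast h2
      omega
    · have h2 := Nat.floor_le (by linarith : (0 : ℝ) ≤ z + 1 / 2)
      have h3 := Nat.lt_floor_add_one (z + 1 / 2)
      rw [abs_le]
      constructor <;> linarith
  have hA : M ≤ 2 * v0 + M / 50 := by
    have h1 := hmv z i hz.1 hz.2 (by positivity) (by exact_mod_cast hi)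
    have h2 := hint i hi
    have h3 : M / 25 * |z - (i : ℝ)| ≤ M / 25 * (1 / 2) :=
      mul_le_mul_of_nonneg_left hzi (by positivity)
    have h4 : |p.eval z| ≤ |p.eval z - p.eval (i : ℝ)| + |p.eval (i : ℝ)| := by
      have := abs_add_le (p.eval z - p.eval (i : ℝ)) (p.eval (i : ℝ))
      simpa using this
    rw [← hM] at h4
    linarith
  have hB : v0 ≤ M / 25 := by
    have h1 := hmv 0 1 le_rfl hlpos.le zero_le_one (by exact_mod_cast hl1)
    have h2 := hneg 1 le_rfl hl1
    rw [Nat.cast_one] at h2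
    have h3 := le_abs_self (p.eval 0 - p.eval 1)
    have h4 : |(0 : ℝ) - 1| = 1 := by norm_num
    rw [h4, mul_one] at h1
    have h5 : p.eval (0 : ℝ) = v0 := hv0def.symm
    linarith
  linarith

end Pool.Agent.H69.PW.GRW
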