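import Pool.Agent.H70.PW.Targets

/-!
# Module LDT: decision trees have low degree
-/

set_option autoImplicit false

namespace Pool.Agent.H69.PW.LDT

open Finset Pool.Agent.H6.NB Pool.Agent.H70.OQ Pool.Agent.H70.PW

theorem lo_var {X : Type} [Fintype X] (v : X) : Lo 1 fun b : X → Bool => ic (b v = false) := by
  classical
  refine ⟨fun U => if U = {v} then 1 else 0, ?_, ?_⟩
  · intro U hU
    have : U = {v} := by
      by_contra h
      simp [h] at hU
    simp [this]
  · intro b
    rw [Finset.sum_eq_single {v}]
    · simp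
    · intro U _ hU
      simp [hU]
    · intro h
      exact absurd (mem_univ _) h

theorem ldt (h : T_LDC) : T_LDT := by
  intro X _ T
  obtain ⟨h1, -, h3, h4, -, h6, -⟩ := h X
  induction T with
  | leaf c =>
    intro w _
    exact h1 w (bi c)
  | node v l r ihl ihr =>
    intro w hw
    have hd : max l.depth r.depth + 1 ≤ w := hw
    obtain ⟨w', rfl⟩ : ∃ w', w = 1 + w' := ⟨w - 1, by omega⟩
    have hl := ihl w' (le_trans (le_max_left _ _) (by omega : max l.depth r.depth ≤ w'))
    have hr := ihr w' (le_trans (le_max_right _ _) (by omega : max l.depth r.depth ≤ w'))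
    have hm := lo_var v
    have a1 := h6 1 w' _ _ hm hl
    have a2 := h4 1 _ _ (h1 1 1) (h3 1 (-1) _ hm)
    have a3 := h6 1 w' _ _ a2 hr
    have a4 := h4 _ _ _ a1 a3
    have e : (fun b => bi ((Pool.Agent.H68.AC.DT.node v l r).eval b)) =
        fun b => ic (b v = false) * bi (l.eval b) +
          (1 + -1 * ic (b v = false)) * bi (r.eval b) := by
      funext b
      cases hb : b v <;> simp [Pool.Agent.H68.AC.DT.eval, hb, ic]
    rw [e]
    exact a4

end Pool.Agent.H69.PW.LDT
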